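import Pool.Agent.N166.AB.Stm
import Pool.Agent.N164.BB.Stmt

/-!
# Exterior products and abelian categories of motives: the definitions
-/

set_option autoImplicit false

open CategoryTheory AlgebraicGeometry

universe u v w

namespace Pool.Agent.N567.AM

open Pool.Agent.H914 Pool.Agent.H914.VarClass Pool.Agent.H914.VarClass.Obj Pool.Agent.W492.BB

variable {k : Type u} [Field k] {𝒱 : VarClass k}

/-- Every morphism is the composition of an epimorphism and a monomorphism. This is the case in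
abelian categories. -/
def HasEpiMono (𝒦 : Type*) [Category 𝒦] : Prop :=
  ∀ (M N : 𝒦) (f : M ⟶ N), ∃ (I : 𝒦) (e : M ⟶ I) (μ : I ⟶ N), Epi e ∧ Mono μ ∧ e ≫ μ = f

/-- `IsExtPower C a Y b`: the variety `Y` is a power `X × (X × ⋯ × X)` of `X`, and `b` is the exterior
product `a × (a × ⋯ × a)`. -/
inductive IsExtPower (C : TheoryData.{u, v, 0} 𝒱 ℚ) {X : 𝒱.Obj} (a : C.A X) :
    ∀ Y : 𝒱.Obj, C.A Y → Prop
  | one : IsExtPower C a X a
  | succ (Y : 𝒱.Obj) (b : C.A Y) (h : IsExtPower C a Y b) :
      IsExtPower C a (X.prod Y) (C.mul (C.up (fst X Y) a) (C.up (snd X Y) b))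

end Pool.Agent.N567.AM
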