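import Pool.Agent.N567.AM.Core
import Pool.Agent.N567.AM.StmM
import Pool.Agent.N166.AB.Fin
import Pool.Agent.TH829.Prime.Theory

/-!
# Exterior products of cycles if the category of Chow motives is abelian
-/

set_option autoImplicit false

open CategoryTheory CategoryTheory.Idempotents AlgebraicGeometry

universe u v w

namespace Pool.Agent.N567.AM

open Pool.Agent.H914 Pool.Agent.H914.VarClass Pool.Agent.H914.VarClass.Obj Pool.Agent.W492.BB
  Pool.Agent.W550.Corr Pool.Agent.TH133 Pool.Agent.Y148.BB Pool.Agent.X308.S Pool.Agent.N166.AB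
open Pool.Agent.N164.BB (graph_mem exists_zeroCycle exists_point)

set_option linter.unusedSectionVars false
set_option linter.unusedVariables false

variable {k : Type u} [Field k] {𝒱 : VarClass k}

variable {C : TheoryData.{u, v, 0} 𝒱 ℚ} [hC : IsChowProj C] [hI : PushIso C] {T X Y Z : 𝒱.Obj}

variable (C) in
/-- The category of Chow motives of all the varieties in the class. -/
abbrev CHM := ChowMotives C (fun Z : 𝒱.Obj => Z)

variable (C) in
/-- The object `h(Z)(m)`. -/
abbrev tw (Z : 𝒱.Obj) (m : ℤ) : Twist C (fun Z : 𝒱.Obj => Z) := ⟨Z, m⟩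

variable (C) in
/-- The motive `h(Z)(m)`. -/
noncomputable def single (Z : 𝒱.Obj) (m : ℤ) : CHM C :=
  ⟨(Mat_.embedding _).obj (tw C Z m), 𝟙 _, by rw [Category.comp_id]⟩

lemma act_ext_one {o : C.A T} (hd : HasDegree C o 1) (w : C.A X) : C.act (C.ext o w) 1 = w := by
  have h1 : C.push (snd T X) (C.pull (fst T X) o) = (1 : ℚ) • (1 : C.A X) := (hd X).1
  rw [TheoryData.act_apply, map_one, mul_one, TheoryData.ext, C.proj_right, h1, one_smul, one_mul]

lemma ext_sum' {ι : Type*} (s : Finset ι) (x : C.A X) (y : ι → C.A Y) :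
    C.ext x (∑ i ∈ s, y i) = ∑ i ∈ s, C.ext x (y i) :=
  Pool.Agent.TH829.Prime.ext_sum_right s x y

lemma ext_inj {o : C.A T} (hd : HasDegree C o 1) {w w' : C.A X} (h : C.ext o w = C.ext o w') :
    w = w' := by
  rw [← act_ext_one hd w, h, act_ext_one hd]

lemma ext_zero' (o : C.A T) : C.ext o (0 : C.A X) = 0 := by
  rw [TheoryData.ext, map_zero, mul_zero]

lemma unit_idem {o : C.A T} (hd : HasDegree C o 1) :
    C.comp (C.ext o (1 : C.A T)) (C.ext o (1 : C.A T)) = C.ext o (1 : C.A T) := by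
  rw [ext_comp, act_ext_one hd]

lemma mat_comp_cls {M N K : Mat_ (Twist C fun Z : 𝒱.Obj => Z)} (f : M ⟶ N) (g : N ⟶ K) (i : M.ι)
    (l : K.ι) : cls ((f ≫ g) i l) = ∑ j, C.comp (cls (f i j)) (cls (g j l)) := by
  change cls (∑ j, f i j ≫ g j l) = _
  rw [cls_sum]
  rfl

/-- A morphism to `h(Z)(m)`. -/
noncomputable def toSingle {P : CHM C} {m : ℤ} (F : P.X ⟶ (single C Z m).X) :
    P ⟶ single C Z m where
  f := P.p ≫ F
  comm := by
    change P.p ≫ (P.p ≫ F) ≫ 𝟙 _ = P.p ≫ F
    rw [Category.comp_id, ← Category.assoc, P.idem]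

/-- A morphism from `h(Z)(m)`. -/
noncomputable def fromSingle {P : CHM C} {m : ℤ} (G : (single C Z m).X ⟶ P.X) :
    single C Z m ⟶ P where
  f := G ≫ P.p
  comm := by
    change 𝟙 _ ≫ (G ≫ P.p) ≫ P.p = G ≫ P.p
    rw [Category.id_comp, Category.assoc, P.idem]

/-- The projector of the unit motive. -/
noncomputable def unitP {o : C.A T} (ho : C.Deg T.dim o) :
    (Mat_.embedding _).obj (tw C T 0) ⟶ (Mat_.embedding _).obj (tw C T 0) :=
  fun _ _ => ofCls (a := tw C T 0) (b := tw C T 0) (C.ext o (1 : C.A T)) (by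
    have h1 : C.ext o (1 : C.A T) ∈ C.gr (T.prod T) (T.dim + 0) :=
      C.mul_mem (C.pull_mem (fst T T) ho) (C.pull_mem (snd T T) (C.one_mem T))
    have e : (T.dim : ℤ) + 0 = T.dim + (0 - 0) := by ring
    rw [e] at h1
    exact h1)

lemma unitP_idem {o : C.A T} (ho : C.Deg T.dim o) (hd : HasDegree C o 1) :
    unitP ho ≫ unitP ho = unitP ho := by
  apply Mat_.hom_ext
  rintro ⟨⟩ ⟨⟩
  apply cls_inj
  refine (mat_comp_cls (unitP ho) (unitP ho) PUnit.unit PUnit.unit).trans ?_
  have h1 : ∑ _j : PUnit, C.comp (C.ext o (1 : C.A T)) (C.ext o (1 : C.A T)) =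
      C.ext o (1 : C.A T) := by
    rw [Finset.univ_unique, Finset.sum_singleton, unit_idem hd]
  exact h1

/-- The unit motive. -/
noncomputable def unitM {o : C.A T} (ho : C.Deg T.dim o) (hd : HasDegree C o 1) : CHM C where
  X := (Mat_.embedding _).obj (tw C T 0)
  p := unitP ho
  idem := unitP_idem ho hd

/-- **Exterior products.** -/
theorem ext_eq_zero (h : HasEpiMono (CHM C)) {i j : ℤ} {x : C.A T} {z : C.A X}
    (hx : C.Deg i x) (hz : C.Deg j z) (hz0 : z ≠ 0) (hxz : C.ext x z = 0) : x = 0 := by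
  obtain ⟨o, ho, hd⟩ := exists_zeroCycle (C := C) X
  have hoz : C.ext o z ∈ C.gr (X.prod X) (X.dim + (j - 0)) := by
    have h1 := C.mul_mem (C.pull_mem (fst X X) ho) (C.pull_mem (snd X X) hz)
    rw [sub_zero]
    exact h1
  let F : (unitM ho hd).X ⟶ (single C X j).X := fun _ _ =>
    ofCls (a := tw C X 0) (b := tw C X j) (C.ext o z) hoz
  let f : unitM ho hd ⟶ single C X j := toSingle F
  have hf : cls (f.f PUnit.unit PUnit.unit) = C.ext o z := by
    have h1 := mat_comp_cls (unitP ho) F PUnit.unit PUnit.unit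
    have h2 : cls (f.f PUnit.unit PUnit.unit) =
      ∑ _j : PUnit, C.comp (C.ext o (1 : C.A X)) (C.ext o z) := h1
    rw [h2, Finset.univ_unique, Finset.sum_singleton, ext_comp, act_ext_one hd]
  obtain ⟨I, e, μ, he, hμ, hfac⟩ := h _ _ f
  let Y : I.X.ι → 𝒱.Obj := fun a => (I.X.X a).idx
  let n : I.X.ι → ℤ := fun a => (I.X.X a).twist
  let p : ∀ a b, C.A ((Y a).prod (Y b)) := fun a b => cls (I.p a b)
  let e' : ∀ a, C.A (X.prod (Y a)) := fun a => cls (e.f PUnit.unit a)
  let ε : ∀ a, C.A (Y a) := fun a => C.act (e' a) 1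
  let m : ∀ a, C.A ((Y a).prod X) := fun a => cls (μ.f a PUnit.unit)
  -- the components of `e`
  have key : ∀ a, e' a = C.ext o (ε a) := by
    intro a
    have h1 := congrFun (congrFun (Karoubi.p_comp e) PUnit.unit) a
    have h2 := (mat_comp_cls (unitP ho) e.f PUnit.unit a).symm.trans (congrArg cls h1)
    have h3 : ∑ _j : PUnit, C.comp (C.ext o (1 : C.A X)) (e' a) = e' a := h2
    rw [Finset.univ_unique, Finset.sum_singleton, ext_comp] at h3
    exact h3.symm
  have hpp : ∀ a c, ∑ b, C.comp (p a b) (p b c) = p a c := by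
    intro a c
    have h1 := congrArg cls (congrFun (congrFun I.idem a) c)
    exact (mat_comp_cls I.p I.p a c).symm.trans h1
  have hpe : ∀ b, ∑ a, C.act (p a b) (ε a) = ε b := by
    intro b
    have h1 := congrArg cls (congrFun (congrFun (Karoubi.comp_p e) PUnit.unit) b)
    have h2 : ∑ a, C.comp (e' a) (p a b) = e' b :=
      (mat_comp_cls e.f I.p PUnit.unit b).symm.trans h1
    apply ext_inj hd
    rw [ext_sum', ← key b, ← h2]
    exact Finset.sum_congr rfl fun a _ => by rw [key a, ext_comp]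
  have hme : ∑ a, C.act (m a) (ε a) = z := by
    have h1 := congrArg cls (congrFun (congrFun ((Karoubi.hom_ext_iff).1 hfac) PUnit.unit)
      PUnit.unit)
    have h2 : ∑ a, C.comp (e' a) (m a) = C.ext o z :=
      ((mat_comp_cls e.f μ.f PUnit.unit PUnit.unit).symm.trans h1).trans hf
    apply ext_inj hd
    rw [ext_sum', ← h2]
    exact Finset.sum_congr rfl fun a _ => by rw [key a, ext_comp]
  have hImg : Img C Y n p ε := by
    refine ⟨fun a b => cls_mem (I.p a b), fun a => ?_, hpp, hpe, fun Z l g hg hsum a => ?_⟩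
    · have h1 : e' a ∈ C.gr (X.prod (Y a)) (X.dim + (n a - 0)) := cls_mem (e.f PUnit.unit a)
      exact act_deg h1 (C.one_mem X) (by ring)
    · let G : I.X ⟶ (single C Z l).X := fun a _ => ofCls (a := I.X.X a) (b := tw C Z l) (g a) (hg a)
      let φ : I ⟶ single C Z l := toSingle G
      have h1 : e ≫ φ = 0 := by
        apply Karoubi.hom_ext
        change e.f ≫ I.p ≫ G = 0
        rw [← Category.assoc, Karoubi.comp_p]
        apply Mat_.hom_ext
        rintro ⟨⟩ ⟨⟩
        apply cls_inj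
        refine (mat_comp_cls e.f G PUnit.unit PUnit.unit).trans ?_
        change ∑ a, C.comp (e' a) (g a) = 0
        have h2 : ∀ a, C.comp (e' a) (g a) = C.ext o (C.act (g a) (ε a)) := by
          intro a
          rw [key a, ext_comp]
        rw [Finset.sum_congr rfl fun a _ => h2 a, ← ext_sum', hsum, ext_zero']
      have h2 : φ = 0 := by
        rw [← cancel_epi e, h1, Limits.comp_zero]
      have h3 := congrArg cls (congrFun (congrFun (congrArg Karoubi.Hom.f h2) a) PUnit.unit)
      exact (mat_comp_cls I.p G a PUnit.unit).symm.trans h3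
  -- the monomorphism
  have hxe : ∀ b, C.ext x (ε b) = 0 := by
    have hdeg : ∀ b, C.ext x (ε b) ∈ C.gr (T.prod (Y b)) (T.dim + (n b - (T.dim - i))) := by
      intro b
      have h1 := C.mul_mem (C.pull_mem (fst T (Y b)) hx) (C.pull_mem (snd T (Y b)) (hImg.he b))
      have e1 : i + n b = T.dim + (n b - (T.dim - i)) := by ring
      rw [e1] at h1
      exact h1
    let G : (single C T (T.dim - i)).X ⟶ I.X := fun _ b =>
      ofCls (a := tw C T (T.dim - i)) (b := I.X.X b) (C.ext x (ε b)) (hdeg b)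
    let φ : single C T (T.dim - i) ⟶ I := fromSingle G
    have hφ : ∀ b, cls (φ.f PUnit.unit b) = C.ext x (ε b) := by
      intro b
      refine (mat_comp_cls G I.p PUnit.unit b).trans ?_
      change ∑ a, C.comp (C.ext x (ε a)) (p a b) = C.ext x (ε b)
      rw [Finset.sum_congr rfl fun a _ => ext_comp x (ε a) (p a b), ← ext_sum', hpe]
    have h1 : φ ≫ μ = 0 := by
      apply Karoubi.hom_ext
      apply Mat_.hom_ext
      rintro ⟨⟩ ⟨⟩
      apply cls_inj
      refine (mat_comp_cls φ.f μ.f PUnit.unit PUnit.unit).trans ?_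
      have h2 : ∀ a, C.comp (cls (φ.f PUnit.unit a)) (cls (μ.f a PUnit.unit)) =
          C.ext x (C.act (m a) (ε a)) := by
        intro a
        rw [hφ a]
        exact ext_comp x (ε a) (m a)
      have h3 : ∑ a, C.ext x (C.act (m a) (ε a)) = 0 := by rw [← ext_sum', hme, hxz]
      exact (Finset.sum_congr rfl fun a _ => h2 a).trans h3
    have h2 : φ = 0 := by
      rw [← cancel_mono μ, h1, Limits.zero_comp]
    intro b
    have h3 := congrArg cls (congrFun (congrFun (congrArg Karoubi.Hom.f h2) PUnit.unit) b)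
    exact (hφ b).symm.trans h3
  obtain ⟨b₀, hb₀⟩ : ∃ b, ε b ≠ 0 := by
    by_contra hcon
    have hcon : ∀ b, ε b = 0 := fun b => by
      by_contra hb
      exact hcon ⟨b, hb⟩
    apply hz0
    rw [← hme]
    exact Finset.sum_eq_zero fun a _ => by rw [hcon a, TheoryData.act_map_zero]
  exact hImg.mono hb₀ hx hxe

end Pool.Agent.N567.AM
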