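import Pool.Agent.N567.MD.Base
import Pool.Agent.Y107.SDMul

/-!
# Images of classes of cycles in the category of Chow motives
-/

set_option autoImplicit false

open CategoryTheory AlgebraicGeometry

universe u v w

namespace Pool.Agent.N567.AM

open Pool.Agent.H914 Pool.Agent.H914.VarClass Pool.Agent.H914.VarClass.Obj Pool.Agent.W492.BB
  Pool.Agent.W550.Corr Pool.Agent.TH133 Pool.Agent.Y148.BB Pool.Agent.X308.S
open Pool.Agent.N164.BB (graph_mem exists_zeroCycle exists_point)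
open Pool.Agent.N567.MD (up down act_up act_down up_mem down_mem)

set_option linter.unusedSectionVars false
set_option linter.unusedVariables false

variable {k : Type u} [Field k] {𝒱 : VarClass k}

variable {C : TheoryData.{u, v, 0} 𝒱 ℚ} [hC : IsChowProj C] {T X Y Z : 𝒱.Obj}

include hC

lemma comp_up (Γ : C.A (X.prod Y)) (f : Z ⟶ Y) (v : C.A Z) :
    C.comp Γ (up f v) = C.pull (prodMap (𝟙 X) f) Γ * C.pull (snd X Z) v := by
  rw [up, ← comp_assoc, Pool.Agent.Y107.comp_mulCorr, ch_comm C, pull_eq_comp,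
    Pool.Agent.N164.BB.tp_graph]

omit hC in
/-- The data of an epimorphism from the unit motive to a motive, an image of the idempotent `p`. -/
structure Img (C : TheoryData.{u, v, 0} 𝒱 ℚ) {ι : Type} [Fintype ι] (Y : ι → 𝒱.Obj) (n : ι → ℤ)
    (p : ∀ a b, C.A ((Y a).prod (Y b))) (e : ∀ a, C.A (Y a)) : Prop where
  hp : ∀ a b, p a b ∈ C.gr _ ((Y a).dim + (n b - n a))
  he : ∀ a, e a ∈ C.gr _ (n a)
  pp : ∀ a c, ∑ b, C.comp (p a b) (p b c) = p a c
  pe : ∀ b, ∑ a, C.act (p a b) (e a) = e b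
  epi : ∀ (Z : 𝒱.Obj) (m : ℤ) (h : ∀ a, C.A ((Y a).prod Z)),
    (∀ a, h a ∈ C.gr _ ((Y a).dim + (m - n a))) → ∑ a, C.act (h a) (e a) = 0 →
      ∀ a, ∑ b, C.comp (p a b) (h b) = 0

section

variable {ι : Type} [Fintype ι] {Y : ι → 𝒱.Obj} {n : ι → ℤ} {p : ∀ a b, C.A ((Y a).prod (Y b))}
  {e : ∀ a, C.A (Y a)} (H : Img C Y n p e)

include H

lemma Img.S1' (a b c : ι) :
    C.comp (p a c) (up (snd (Y b) (Y c)) (C.pull (fst (Y b) (Y c)) (e b))) =
      C.comp (p a b) (up (fst (Y b) (Y c)) (C.pull (snd (Y b) (Y c)) (e c))) := by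
  set U := up (snd (Y b) (Y c)) (C.pull (fst (Y b) (Y c)) (e b)) with hU
  set V := up (fst (Y b) (Y c)) (C.pull (snd (Y b) (Y c)) (e c)) with hV
  have hUm : U ∈ C.gr _ ((Y c).dim + n b) := up_mem _ (C.pull_mem _ (H.he b))
  have hVm : V ∈ C.gr _ ((Y b).dim + n c) := up_mem _ (C.pull_mem _ (H.he c))
  have h1 := H.epi ((Y b).prod (Y c)) (n b + n c) (fun a => C.comp (p a c) U - C.comp (p a b) V)
    (fun a => ?_) ?_ a
  · have h2 : ∀ (d : ι) {W : 𝒱.Obj} (Δ : C.A ((Y d).prod W)),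
        ∑ a', C.comp (p a a') (C.comp (p a' d) Δ) = C.comp (p a d) Δ := by
      intro d W Δ
      rw [← H.pp a d, sum_comp]
      exact Finset.sum_congr rfl fun b _ => (comp_assoc C _ _ _).symm
    simp only [comp_sub, Finset.sum_sub_distrib] at h1
    rw [h2, h2, sub_eq_zero] at h1
    exact h1
  · refine Submodule.sub_mem _ (comp_deg (H.hp a c) hUm ?_) (comp_deg (H.hp a b) hVm ?_)
    · ring
    · ring
  · have h3 : ∀ a, C.act (C.comp (p a c) U - C.comp (p a b) V) (e a) =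
        C.pull (fst (Y b) (Y c)) (e b) * C.pull (snd (Y b) (Y c)) (C.act (p a c) (e a)) -
        C.pull (snd (Y b) (Y c)) (e c) * C.pull (fst (Y b) (Y c)) (C.act (p a b) (e a)) := by
      intro a
      rw [TheoryData.act_sub, C.act_comp, C.act_comp, hU, hV, act_up, act_up]
    rw [Finset.sum_congr rfl fun a _ => h3 a, Finset.sum_sub_distrib, ← Finset.mul_sum,
      ← Finset.mul_sum, ← map_sum, ← map_sum, H.pe, H.pe, ch_comm C, sub_self]

lemma Img.comp_p (a d : ι) {W : 𝒱.Obj} (Δ : C.A ((Y d).prod W)) :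
    ∑ a', C.comp (p a a') (C.comp (p a' d) Δ) = C.comp (p a d) Δ := by
  rw [← H.pp a d, sum_comp]
  exact Finset.sum_congr rfl fun b _ => (comp_assoc C _ _ _).symm

lemma Img.S1 (a b c : ι) :
    C.pull (t13 (Y a) (Y b) (Y c)) (p a c) *
        C.pull (fst ((Y a).prod (Y b)) (Y c) ≫ snd (Y a) (Y b)) (e b) =
      C.pull (fst ((Y a).prod (Y b)) (Y c)) (p a b) *
        C.pull (snd ((Y a).prod (Y b)) (Y c)) (e c) := by
  have h1 := congrArg (C.pull (aI (Y a) (Y b) (Y c))) (H.S1' a b c)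
  rw [comp_up, comp_up, map_mul, map_mul, ← C.pull_comp, ← C.pull_comp, ← C.pull_comp,
    ← C.pull_comp, ← C.pull_comp, ← C.pull_comp] at h1
  have e1 : aI (Y a) (Y b) (Y c) ≫ prodMap (𝟙 (Y a)) (snd (Y b) (Y c)) = t13 (Y a) (Y b) (Y c) := by
    apply prod_ext <;> simp [aI, t13]
  have e2 : aI (Y a) (Y b) (Y c) ≫ prodMap (𝟙 (Y a)) (fst (Y b) (Y c)) =
      fst ((Y a).prod (Y b)) (Y c) := by
    apply prod_ext <;> simp [aI]
  have e3 : aI (Y a) (Y b) (Y c) ≫ snd (Y a) ((Y b).prod (Y c)) ≫ fst (Y b) (Y c) =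
      fst ((Y a).prod (Y b)) (Y c) ≫ snd (Y a) (Y b) := by
    simp [aI]
  have e4 : aI (Y a) (Y b) (Y c) ≫ snd (Y a) ((Y b).prod (Y c)) ≫ snd (Y b) (Y c) =
      snd ((Y a).prod (Y b)) (Y c) := by
    simp [aI]
  simp only [Category.assoc] at h1
  rw [e1, e2, e3, e4] at h1
  exact h1

lemma Img.S2 (b' a b c : ι) :
    C.comp (p b' b) (up (fst ((Y a).prod (Y b)) (Y c) ≫ snd (Y a) (Y b))
        (C.pull (t13 (Y a) (Y b) (Y c)) (p a c))) =
      C.comp (p b' c) (up (snd ((Y a).prod (Y b)) (Y c))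
        (C.pull (fst ((Y a).prod (Y b)) (Y c)) (p a b))) := by
  set U := up (fst ((Y a).prod (Y b)) (Y c) ≫ snd (Y a) (Y b))
        (C.pull (t13 (Y a) (Y b) (Y c)) (p a c)) with hU
  set V := up (snd ((Y a).prod (Y b)) (Y c))
        (C.pull (fst ((Y a).prod (Y b)) (Y c)) (p a b)) with hV
  have hUm : U ∈ C.gr _ ((Y b).dim + ((Y a).dim + (n c - n a))) :=
    up_mem _ (C.pull_mem _ (H.hp a c))
  have hVm : V ∈ C.gr _ ((Y c).dim + ((Y a).dim + (n b - n a))) :=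
    up_mem _ (C.pull_mem _ (H.hp a b))
  have h1 := H.epi (((Y a).prod (Y b)).prod (Y c)) (n b + ((Y a).dim + (n c - n a)))
    (fun b' => C.comp (p b' b) U - C.comp (p b' c) V) (fun b' => ?_) ?_ b'
  · simp only [comp_sub, Finset.sum_sub_distrib] at h1
    rw [H.comp_p, H.comp_p, sub_eq_zero] at h1
    exact h1
  · refine Submodule.sub_mem _ (comp_deg (H.hp b' b) hUm ?_) (comp_deg (H.hp b' c) hVm ?_)
    · ring
    · ring
  · have h3 : ∀ b', C.act (C.comp (p b' b) U - C.comp (p b' c) V) (e b') =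
        C.pull (t13 (Y a) (Y b) (Y c)) (p a c) *
          C.pull (fst ((Y a).prod (Y b)) (Y c) ≫ snd (Y a) (Y b)) (C.act (p b' b) (e b')) -
        C.pull (fst ((Y a).prod (Y b)) (Y c)) (p a b) *
          C.pull (snd ((Y a).prod (Y b)) (Y c)) (C.act (p b' c) (e b')) := by
      intro b'
      rw [TheoryData.act_sub, C.act_comp, C.act_comp, hU, hV, act_up, act_up]
    rw [Finset.sum_congr rfl fun a _ => h3 a, Finset.sum_sub_distrib, ← Finset.mul_sum,
      ← Finset.mul_sum, ← map_sum, ← map_sum, H.pe, H.pe, H.S1, sub_self]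

/-- The contraction of the swap. -/
lemma Img.contract (a b c : ι) {q : ℚ}
    (hq : HasDegree C (C.pull (Obj.lift (𝟙 (Y b)) (𝟙 (Y b))) (p b b)) q) :
    q • p a c = C.comp (p a b) (p b c) := by
  have hsnd : ∀ z : C.A (((Y a).prod (Y b)).prod (Y c)),
      C.pull (Obj.lift (fst ((Y a).prod (Y b)) (Y c) ≫ snd (Y a) (Y b)) (𝟙 _))
        (C.pull (snd (Y b) (((Y a).prod (Y b)).prod (Y c))) z) = z := by
    intro z
    rw [← C.pull_comp, lift_snd, C.pull_id]
  have h1 := congrArg (C.pull (Obj.lift (fst ((Y a).prod (Y b)) (Y c) ≫ snd (Y a) (Y b)) (𝟙 _)))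
    (H.S2 b a b c)
  rw [comp_up, comp_up, map_mul, map_mul, hsnd, hsnd, ← C.pull_comp, ← C.pull_comp] at h1
  have e1 : Obj.lift (fst ((Y a).prod (Y b)) (Y c) ≫ snd (Y a) (Y b)) (𝟙 _) ≫
      prodMap (𝟙 (Y b)) (fst ((Y a).prod (Y b)) (Y c) ≫ snd (Y a) (Y b)) =
        (fst ((Y a).prod (Y b)) (Y c) ≫ snd (Y a) (Y b)) ≫ Obj.lift (𝟙 (Y b)) (𝟙 (Y b)) := by
    apply prod_ext <;> simp [comp_lift]
  have e2 : Obj.lift (fst ((Y a).prod (Y b)) (Y c) ≫ snd (Y a) (Y b)) (𝟙 _) ≫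
      prodMap (𝟙 (Y b)) (snd ((Y a).prod (Y b)) (Y c)) = t23 (Y a) (Y b) (Y c) := by
    apply prod_ext
    · simp
    · simp [t23]
  rw [e1, e2, C.pull_comp] at h1
  have h2 := congrArg (C.push (t13 (Y a) (Y b) (Y c))) h1
  rw [C.proj_right] at h2
  have h3 : C.push (t13 (Y a) (Y b) (Y c))
      (C.pull (fst ((Y a).prod (Y b)) (Y c) ≫ snd (Y a) (Y b))
        (C.pull (Obj.lift (𝟙 (Y b)) (𝟙 (Y b))) (p b b))) = q • (1 : C.A _) := by
    have h4 := C.base_fst (fst (Y a) (Y b)) (Y c)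
      (C.pull (snd (Y a) (Y b)) (C.pull (Obj.lift (𝟙 (Y b)) (𝟙 (Y b))) (p b b)))
    have h5 : C.push (fst (Y a) (Y b)) (C.pull (snd (Y a) (Y b))
      (C.pull (Obj.lift (𝟙 (Y b)) (𝟙 (Y b))) (p b b))) = q • (1 : C.A (Y a)) := (hq (Y a)).2
    rw [h5, map_smul, map_one, ← C.pull_comp] at h4
    exact h4.symm
  rw [h3, smul_mul_assoc, one_mul] at h2
  exact h2

lemma Img.contract' {b : ι} {i : ℤ} {x : C.A T} (hx : x ∈ C.gr T i)
    (hxe : ∀ b, C.ext x (e b) = 0) {q : ℚ}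
    (hq : HasDegree C (C.pull (Obj.lift (𝟙 (Y b)) (𝟙 (Y b))) (p b b)) q) : q • x = 0 := by
  set U := up (snd T (Y b)) (C.pull (fst T (Y b)) x) with hU
  have hUm : U ∈ C.gr _ ((Y b).dim + i) := up_mem _ (C.pull_mem _ hx)
  have h1 : ∑ a', C.comp (p b a') (C.comp (p a' b) U) = 0 :=
    H.epi (T.prod (Y b)) (n b + i) (fun a => C.comp (p a b) U) (fun a => ?_) ?_ b
  · rw [H.comp_p, hU, comp_up] at h1
    have h2 := congrArg (C.pull (Obj.lift (snd T (Y b)) (𝟙 (T.prod (Y b))))) h1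
    have e1 : Obj.lift (snd T (Y b)) (𝟙 (T.prod (Y b))) ≫ prodMap (𝟙 (Y b)) (snd T (Y b)) =
        snd T (Y b) ≫ Obj.lift (𝟙 (Y b)) (𝟙 (Y b)) := by
      apply prod_ext <;> simp [comp_lift]
    rw [map_mul, ← C.pull_comp, ← C.pull_comp, lift_snd, C.pull_id, map_zero, e1, C.pull_comp] at h2
    have h3 := congrArg (C.push (fst T (Y b))) h2
    rw [C.proj_right, map_zero] at h3
    have h5 : C.push (fst T (Y b)) (C.pull (snd T (Y b))
      (C.pull (Obj.lift (𝟙 (Y b)) (𝟙 (Y b))) (p b b))) = q • (1 : C.A T) := (hq T).2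
    rw [h5, smul_mul_assoc, one_mul] at h3
    exact h3
  · refine comp_deg (H.hp a b) hUm ?_
    ring
  · have h3 : ∀ a, C.act (C.comp (p a b) U) (e a) =
        C.pull (fst T (Y b)) x * C.pull (snd T (Y b)) (C.act (p a b) (e a)) := by
      intro a
      rw [C.act_comp, hU, act_up]
    rw [Finset.sum_congr rfl fun a _ => h3 a, ← Finset.mul_sum, ← map_sum, H.pe]
    exact hxe b

/-- **An epimorphism from the unit motive is zero or a monomorphism.** -/
theorem Img.mono {b₀ : ι} (hb : e b₀ ≠ 0) {i : ℤ} {x : C.A T} (hx : x ∈ C.gr T i)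
    (hxe : ∀ b, C.ext x (e b) = 0) : x = 0 := by
  have hw : ∀ b, C.pull (Obj.lift (𝟙 (Y b)) (𝟙 (Y b))) (p b b) ∈ C.gr (Y b) (Y b).dim := by
    intro b
    have h1 := C.pull_mem (Obj.lift (𝟙 (Y b)) (𝟙 (Y b))) (H.hp b b)
    rwa [sub_self, add_zero] at h1
  choose q hq using fun b => exists_hasDegree (hw b)
  by_contra hx0
  have hq0 : ∀ b, q b = 0 := by
    intro b
    rcases smul_eq_zero.1 (H.contract' hx hxe (hq b)) with h | h
    · exact h
    · exact absurd h hx0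
  have hp0 : ∀ a c, p a c = 0 := by
    intro a c
    rw [← H.pp a c]
    refine Finset.sum_eq_zero fun b _ => ?_
    rw [← H.contract a b c (hq b), hq0, zero_smul]
  apply hb
  rw [← H.pe b₀]
  refine Finset.sum_eq_zero fun a _ => ?_
  rw [hp0, TheoryData.act_zero]

end

end Pool.Agent.N567.AM
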