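import Pool.Agent.N567.AM.Cat
import Pool.Agent.N166.AB.Main

/-!
# Is the category of Chow motives abelian? The theorems
-/

set_option autoImplicit false

open CategoryTheory CategoryTheory.Idempotents AlgebraicGeometry

universe u v w

namespace Pool.Agent.N567.AM

open Pool.Agent.H914 Pool.Agent.H914.VarClass Pool.Agent.H914.VarClass.Obj Pool.Agent.W492.BB
  Pool.Agent.TH133 Pool.Agent.N166.AB Pool.Agent.TH829.Prime Pool.Agent.W484.CK

set_option linter.unusedSectionVars false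
set_option linter.unusedVariables false

variable {k : Type u} [Field k] {𝒱 : VarClass k}

lemma hasEpiMono_of_abelian {𝒦 : Type*} [Category 𝒦] (h : Nonempty (Abelian 𝒦)) :
    HasEpiMono 𝒦 := by
  obtain ⟨h⟩ := h
  intro M N f
  exact ⟨Limits.image f, Limits.factorThruImage f, Limits.image.ι f, inferInstance, inferInstance,
    Limits.image.fac f⟩

variable {C : TheoryData.{u, v, 0} 𝒱 ℚ} [hC : IsChowProj C] [hI : PushIso C]

/-- Exterior products of nonzero classes are nonzero. -/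
theorem prime_of_epiMono (h : HasEpiMono (CHM C)) {X Y : 𝒱.Obj} {i j : ℤ} {x : C.A X} {y : C.A Y}
    (hx : C.Deg i x) (hy : C.Deg j y) (hxy : C.ext x y = 0) : x = 0 ∨ y = 0 := by
  by_cases hy0 : y = 0
  · exact Or.inr hy0
  · exact Or.inl (ext_eq_zero h hx hy hy0 hxy)

/-- There are no smash-nilpotent classes. -/
theorem smash_zero (h : HasEpiMono (CHM C)) {X : 𝒱.Obj} {i : ℤ} {x : C.A X}
    (hx : C.Deg i x) (hs : SmashNilpotent C x) : x = 0 := by
  obtain ⟨m, hm⟩ := hs
  induction m with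
  | zero => exact hm
  | succ m ih =>
    have h1 : C.ext x (extPow C x m) = 0 := hm
    rcases prime_of_epiMono h hx (extPow_mem hx m) h1 with h2 | h2
    · exact h2
    · exact ih h2

/-- Exterior powers of nonzero classes are nonzero. -/
theorem extPower_zero (h : HasEpiMono (CHM C)) {X : 𝒱.Obj} {i : ℤ} {x : C.A X}
    (hx : C.Deg i x) {Y : 𝒱.Obj} {b : C.A Y} (hs : IsExtPower C x Y b) :
    (∃ j : ℤ, C.Deg j b) ∧ (b = 0 → x = 0) := by
  induction hs with
  | one => exact ⟨⟨i, hx⟩, id⟩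
  | succ Y b hb ih =>
    obtain ⟨⟨j, hj⟩, h1⟩ := ih
    refine ⟨⟨i + j, C.mul_mem (C.pull_mem _ hx) (C.pull_mem _ hj)⟩, fun h2 => ?_⟩
    have h3 : C.ext x b = 0 := h2
    rcases prime_of_epiMono h hx hj h3 with h4 | h4
    · exact h4
    · exact h1 h4

theorem mainAM {K : Type w} [Field K] [CharZero K] {H : WeilTheoryData.{u, v, w} C K} [IsWeil H]
    (hS : IsStandard H) (hG : Pool.Agent.N166.AB.IsGradedCommutative H) :
    (∀ X : 𝒱.Obj, RatEqNum H X) ↔
      (Nonempty (Abelian (CHM C)) ∧ ∀ (X : 𝒱.Obj) (i : ℕ) (z : C.A X), C.Deg i z →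
        (∀ (j : ℕ) (w : C.A X), i + j = X.dim → C.Deg j w → H.tr X (H.cl (C.mul z w)) = 0) →
          ∃ Y : 𝒱.Obj, IsExtPower C z Y 0) := by
  constructor
  · intro h
    refine ⟨(abelian_chowMotives (isStandard_bridge hS) hG fun i j => h _).1,
      fun X i z hz hnum => ⟨X, ?_⟩⟩
    rw [h X i z hz hnum]
    exact IsExtPower.one
  · rintro ⟨h1, h2⟩ X i z hz hnum
    obtain ⟨Y, hY⟩ := h2 X i z hz hnum
    exact (extPower_zero (hasEpiMono_of_abelian h1) hz hY).2 rfl

end Pool.Agent.N567.AM
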